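import Pool.Agent.Lib.MP_557161_ag.DL.Rl
import Pool.Agent.Lib.MP_557161_ag.D2.Link
import Pool.Agent.Lib.MP_557161_ag.D2.Defs2

/-!
Tate classes on the smooth compactifications of the Deligne-Lusztig varieties of orthogonal and
symplectic groups in every characteristic are algebraic in every realisation on which
correspondences act.
-/

namespace Pool.Agent.Results.MP_60ec62_ag.OrthSympAllChar

open MvPolynomial Matrix Pool.Agent.Lib.MP_557161_ag.DL Pool.Agent.Lib.MP_557161_ag.DL.D2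

theorem result (p e N l : ℕ) (hp : p.Prime) (he : 0 < e)
    (k : Type) [Field k] [Finite k] [CharP k p] (G B : Matrix (Fin N) (Fin N) k)
    (hG : G = B + Bᵀ ∨ (B = 0 ∧ Gᵀ = -G ∧ ∀ i, G i i = 0))
    (hnd : ∀ v, G *ᵥ v = 0 → v ⬝ᵥ B *ᵥ v = 0 → v = 0)
    (hq : ∀ i j, G i j ^ p ^ e = G i j) (hq' : ∀ i j, B i j ^ p ^ e = B i j)
    (w : Fin l → Fin (N / 2))
    (C : Set (Ideal (MvPolynomial (Idx (Fin N) (N / 2) l) k)))
    (hC : C ⊆ (qideal k G B (p ^ e) w).minimalPrimes) :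
    R2.SmIdeal (sInf C) ∧ R2.Tate (Nat.card k) (R2.barI (sInf C)) := by
  have hn : N / 2 = Fintype.card (Fin N) / 2 := by rw [Fintype.card_fin]
  have g1 := modelQ_homog (G := G) (B := B) (q := p ^ e) w
  obtain ⟨g2, -, g3⟩ := model_all hp he hG hnd hq hq' hn w
  exact ⟨⟨comp_homog g1 hC, fun s => comp_smooth g1 hC (g2 s)⟩,
    Rl.tate (comp_homog g1 hC) (comp_ck g1 g2 hC g3).van⟩

end Pool.Agent.Results.MP_60ec62_ag.OrthSympAllChar
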