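import Pool.Agent.Lib.MP_557161_ag.TW.AllT
import Pool.Agent.Lib.MP_557161_ag.HG.ZY

/-!
Tate classes of every codimension on the minimal resolutions of the surfaces
`z ^ 2 = (x - y) f (x) D (y)` are algebraic in every realisation on which correspondences act.
-/

namespace Pool.Agent.Results.MP_60ec62_ag.TwistAllDegrees

open MvPolynomial Pool.Agent.Lib.MP_557161_ag.DL
open Pool.Agent.Lib.MP_557161_ag.HG (TateAt ZY_thm)
open Pool.Agent.Lib.MP_557161_ag.HG.TW.P2 (twI final finalT)

theorem result (k : Type) [Field k] [Finite k] (h2 : (2 : k) ≠ 0) (g h : ℕ) (hg : 0 < g)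
    (hh : 0 < h) (f D : Polynomial k) (hf : Squarefree f) (f1 : 2 * g ≤ f.natDegree)
    (f2 : f.natDegree ≤ 2 * g + 1) (hD : Irreducible D) (D1 : D.natDegree = 2 * h + 1)
    (hc : ∀ u : Polynomial k, Irreducible u → u ∣ f → Nat.Coprime u.natDegree (2 * h + 1))
    (P Q : MvPolynomial (Fin 2) k) (hP : P = f.homogenize (2 * g + 1))
    (hQ : Q = D.homogenize (2 * h + 1)) :
    (Homog (twI g h P Q) ∧ (∀ s, Algebra.Smooth k (Chart (twI g h P Q) s)) ∧
      ∀ Z ∈ (twI g h P Q).minimalPrimes, ringKrullDim (_ ⧸ Z) = (2 + 1 : ℕ)) ∧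
      ∀ i ≤ 2,
        TateAt (Nat.card k) i ((twI g h P Q).map (map (algebraMap k (AlgebraicClosure k)))) := by
  subst hP hQ
  have := ZY_thm
  have : Fact (ringChar k).Prime := ⟨CharP.char_is_prime k _⟩
  have co : IsCoprime f D := (hD.coprime_iff_not_dvd.2 fun d => by
    have := hc D hD d
    rw [D1, Nat.coprime_self] at this
    omega).symm
  obtain ⟨h1, -⟩ :=
    final ⟨h2, hg, hh, hf, hD.squarefree, co, f1, f2, by omega, D1.le, Or.inr D1⟩
      (fun m => FiniteField.Extension k (ringChar k) (m + 1))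
      fun m => FiniteField.finrank_extension k _ _
  exact ⟨⟨h1.1, h1.2.1, h1.2.2.1⟩,
    finalT ⟨h2, hg, hh, hf, hD.squarefree, co, f1, f2, by omega, D1.le, Or.inr D1⟩ ⟨hD, D1, hc⟩
      (fun m => FiniteField.Extension k (ringChar k) (m + 1))
      fun m => FiniteField.finrank_extension k _ _⟩

end Pool.Agent.Results.MP_60ec62_ag.TwistAllDegrees
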