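import Mathlib
import Pool.Agent.Lib.MP_60ec62_ag.DF.Real2
import Pool.Agent.Lib.MP_60ec62_ag.DF.FInduct
import Pool.Agent.Lib.MP_60ec62_ag.DF.FBruhatB
import Pool.Agent.Lib.MP_60ec62_ag.DF.FDem
import Pool.Agent.Lib.MP_60ec62_ag.DF.PDrop

/-!
Tate classes on the Deligne-Lusztig varieties of the finite unitary groups are algebraic in every
realisation on which correspondences act.
-/

namespace Pool.Agent.Results.MP_60ec62_ag.UnitaryTate

open Pool.Agent.Lib.MP_60ec62_ag.DL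

theorem result (p e : ℕ) [Fact p.Prime] (he : 0 < e) (K : Type) [Field K] [IsAlgClosed K]
    [CharP K p] (hK : ∀ x : K, ∃ N, 0 < N ∧ x ^ p ^ N = x) (n l : ℕ) (s : Fin l → ℕ)
    (ρ : ℕ → ℕ → ℕ) :
    Stm.Tate p (Stm.Sub K n (p ^ e) s ρ) (Stm.tw p)
      (Stm.Rat (Stm.Bor K n _) (Stm.Sub₂ K n (p ^ e) s ρ))
      {Q ∈ Stm.Sub₂ K n (p ^ e) s ρ | Stm.IsProd Q} Stm.fst fun j => Stm.graph (p ^ j) := by
  have hp : IsPP p (p ^ e) := ⟨e, he, rfl⟩
  have : Fact (Per K p) := ⟨hK⟩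
  exact real2 hK hp (two hK (pas_Dset s ρ) (fun x hx => hx.1.1) (stSet_Dset hp s ρ)
    (F.dem (fun ρ' => F.bruhat hp (F.c_all hp n) ρ') s ρ).drop)

end Pool.Agent.Results.MP_60ec62_ag.UnitaryTate
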